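import Pool.Agent.H.MP_33747a_co.B

namespace Pool.Agent.Results.MP_33747a_co.LargeN
open Finset Pool.Agent.H.MP_33747a_co

/-- Adjacency matrices of the perfect matchings of `K_{2n}` (fixed-point-free involutions). -/
def PM (n : ℕ) : Set (Matrix (Fin (2 * n)) (Fin (2 * n)) ℝ) :=
  {A | ∃ σ : Fin (2 * n) → Fin (2 * n), (∀ i, σ i ≠ i) ∧ (∀ i, σ (σ i) = i) ∧
    ∀ i j, A i j = if σ i = j then 1 else 0}

/-- The perfect matching polytope `Ψ_{2n}`. -/
def Psi (n : ℕ) : Set (Matrix (Fin (2 * n)) (Fin (2 * n)) ℝ) := convexHull ℝ (PM n)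

/-- The entry of `B` on the unordered pair `{i,j}` (equal to `B i j` for symmetric `B`). -/
noncomputable def ew {n : ℕ} (B : Matrix (Fin (2 * n)) (Fin (2 * n)) ℝ) : Sym2 (Fin (2 * n)) → ℝ :=
  Sym2.lift ⟨fun i j => (B i j + B j i) / 2, fun i j => by ring⟩

/-- `M` is a `k`-matching of `K_{2n}`: `k` pairwise disjoint (non-loop) edges. -/
def IsMatching {n : ℕ} (k : ℕ) (M : Finset (Sym2 (Fin (2 * n)))) : Prop :=
  M.card = k ∧ (∀ e ∈ M, ¬ e.IsDiag) ∧ ∀ e ∈ M, ∀ f ∈ M, e ≠ f → ∀ v, v ∈ e → v ∉ f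

open Classical in
/-- The `k`-hafnian. -/
noncomputable def haf {n : ℕ} (k : ℕ) (B : Matrix (Fin (2 * n)) (Fin (2 * n)) ℝ) : ℝ :=
  ∑ M ∈ univ.filter (IsMatching k), ∏ e ∈ M, ew B e

/-- `J_{2n} = A(K_{2n}) / (2n-1)`. -/
noncomputable def J (n : ℕ) : Matrix (Fin (2 * n)) (Fin (2 * n)) ℝ :=
  fun i j => if i = j then 0 else 1 / (2 * n - 1)

theorem haf_eq {n : ℕ} (k : ℕ) (B : Matrix (Fin (2 * n)) (Fin (2 * n)) ℝ) :
    haf k B = hh (ew B) k univ := by
  unfold haf hh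
  congr 1
  ext M
  simp [mem_mats, IsMatching, IsM]

theorem props {n : ℕ} (B : Matrix (Fin (2 * n)) (Fin (2 * n)) ℝ) (hB : B ∈ Psi n) :
    (∀ i j, B i j = B j i) ∧ (∀ i j, 0 ≤ B i j) ∧ (∀ i, B i i = 0) ∧ ∀ i, ∑ j, B i j = 1 := by
  refine convexHull_min (t := {B : Matrix (Fin (2 * n)) (Fin (2 * n)) ℝ | (∀ i j, B i j = B j i) ∧
    (∀ i j, 0 ≤ B i j) ∧ (∀ i, B i i = 0) ∧ ∀ i, ∑ j, B i j = 1}) ?_ ?_ hB
  · rintro A ⟨σ, h1, h2, h3⟩
    refine ⟨fun i j => ?_, fun i j => ?_, fun i => by simp [h3, h1], fun i => by simp [h3]⟩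
    · rw [h3, h3]
      have : σ i = j ↔ σ j = i := ⟨fun h => by rw [← h, h2], fun h => by rw [← h, h2]⟩
      simp only [this]
    · rw [h3]; split_ifs <;> norm_num
  · rintro A ⟨a1, a2, a3, a4⟩ C ⟨c1, c2, c3, c4⟩ s t hs ht hst
    refine ⟨fun i j => ?_, fun i j => ?_, fun i => ?_, fun i => ?_⟩
    · simp [a1 i j, c1 i j]
    · have := a2 i j; have := c2 i j
      simp only [Matrix.add_apply, Matrix.smul_apply, smul_eq_mul]; positivity
    · simp [a3, c3]
    · simp [Finset.sum_add_distrib, ← Finset.mul_sum, a4, c4, hst]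

theorem conj_mem {n : ℕ} (τ : Equiv.Perm (Fin (2 * n))) (B : Matrix (Fin (2 * n)) (Fin (2 * n)) ℝ)
    (hB : B ∈ Psi n) : B.submatrix τ τ ∈ Psi n := by
  refine convexHull_min (t := {B : Matrix (Fin (2 * n)) (Fin (2 * n)) ℝ |
    B.submatrix τ τ ∈ Psi n}) ?_ ?_ hB
  · rintro A ⟨σ, h1, h2, h3⟩
    refine subset_convexHull ℝ _ ⟨fun i => τ.symm (σ (τ i)), fun i h => h1 (τ i) ?_,
      fun i => by simp [h2], fun i j => ?_⟩
    · simpa [Equiv.symm_apply_eq] using h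
    · simp [h3, Equiv.symm_apply_eq]
  · intro A hA C hC s t hs ht hst
    exact convex_convexHull ℝ (PM n) hA hC hs ht hst

theorem cpt (n : ℕ) : IsCompact (Psi n) := by
  apply Set.Finite.isCompact_convexHull
  refine (Set.finite_range fun σ : Fin (2 * n) → Fin (2 * n) =>
    (fun i j => if σ i = j then 1 else 0 : Matrix (Fin (2 * n)) (Fin (2 * n)) ℝ)).subset ?_
  rintro A ⟨σ, _, _, h3⟩
  exact ⟨σ, by ext i j; exact (h3 i j).symm⟩

theorem cont {n : ℕ} (k : ℕ) : Continuous (haf (n := n) k) := by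
  unfold haf
  refine continuous_finset_sum _ fun M _ => continuous_finset_prod _ fun e _ => ?_
  induction e using Sym2.ind with
  | h a b => simp only [ew, Sym2.lift_mk]; fun_prop

theorem uniq (k n : ℕ) (hk : 3 ≤ k) (hn : 2 * (k - 2) ^ 2 + 2 * (k - 2) + 1 ≤ n)
    (B : Matrix (Fin (2 * n)) (Fin (2 * n)) ℝ) (hB : B ∈ Psi n)
    (hmin : ∀ C ∈ Psi n, haf k B ≤ haf k C) : B = J n := by
  obtain ⟨k, rfl⟩ : ∃ c, k = c + 1 + 2 := ⟨k - 3, by omega⟩
  rw [Nat.add_sub_cancel] at hn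
  obtain ⟨b1, b2, b3, b4⟩ := props B hB
  have hw : ∀ i j, ew B s(i, j) = B i j := fun i j => by simp [ew, b1 j i]
  have hrow : ∀ v, ∑ u ∈ univ.erase v, B v u = 1 := fun v => by
    rw [← b4 v, ← Finset.add_sum_erase _ _ (mem_univ v), b3, zero_add]
  have hDS : DS (ew B) := ⟨fun e => by
    induction e using Sym2.ind with
    | h a b => rw [hw]; exact b2 a b, fun v => by simp only [hw, hrow]⟩
  have key : ∀ i j l, i ≠ j → l ≠ i → l ≠ j → B i l = B j l := by
    intro i j l hij hli hlj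
    by_contra hne
    let τ := Equiv.swap i j
    let C := (1 / 2 : ℝ) • B + (1 / 2 : ℝ) • B.submatrix τ τ
    have hC : C ∈ Psi n := convex_convexHull ℝ (PM n) hB (conj_mem τ B hB) (by norm_num)
      (by norm_num) (by norm_num)
    have hwC : ∀ a b, ew C s(a, b) = (B a b + B (τ a) (τ b)) / 2 := fun a b => by
      simp only [ew, Sym2.lift_mk, C, Matrix.add_apply, Matrix.smul_apply, smul_eq_mul,
        Matrix.submatrix_apply, b1 b a, b1 (τ b) (τ a)]
      ring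
    have hτ : ∀ a ∈ (univ.erase i).erase j, τ a = a := fun a ha => by
      simp only [mem_erase] at ha
      exact Equiv.swap_apply_of_ne_of_ne ha.2.1 ha.1
    have := avg_lt (w' := ew C) hDS k i j hij (by simp; nlinarith) _ rfl
      (fun a ha b hb => by rw [hwC, hw, hτ a ha, hτ b hb]; ring)
      (by rw [hwC, hw]; simp [τ, b1 j i])
      (fun a ha => by rw [hwC, hw, hw, hτ a ha]; simp [τ])
      (fun a ha => by rw [hwC, hw, hw, hτ a ha]; simp [τ, add_comm])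
      ⟨l, by simp [hli, hlj], by rwa [hw, hw]⟩
    rw [← haf_eq, ← haf_eq] at this
    exact absurd (hmin C hC) (not_le.2 this)
  ext i l
  unfold J
  split_ifs with h
  · rw [h, b3]
  · have r := hrow l
    rw [Finset.sum_congr rfl (g := fun _ => B i l) (fun u hu => by
      by_cases hui : u = i
      · rw [hui, b1]
      · rw [b1, key u i l hui (Finset.ne_of_mem_erase hu).symm (Ne.symm h)])] at r
    have hn1 : 1 ≤ 2 * n := by omega
    simp only [Finset.sum_const, Finset.card_erase_of_mem (mem_univ l), Finset.card_univ,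
      Fintype.card_fin, nsmul_eq_mul, Nat.cast_sub hn1] at r
    push_cast at r
    have : (2 * n - 1 : ℝ) ≠ 0 := fun h0 => by rw [h0] at r; simp at r
    field_simp
    linarith

theorem result (k n : ℕ) (hk : 3 ≤ k) (hn : 2 * (k - 2) ^ 2 + 2 * (k - 2) + 1 ≤ n) :
    J n ∈ Psi n ∧ ∀ B ∈ Psi n, haf k (J n) ≤ haf k B ∧ (haf k B = haf k (J n) → B = J n) := by
  have hne : (Psi n).Nonempty := ⟨fun i j => if Fin.rev i = j then 1 else 0,
    subset_convexHull ℝ _ ⟨Fin.rev, fun i h => by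
      have := congrArg Fin.val h
      rw [Fin.val_rev] at this; omega, Fin.rev_rev, fun _ _ => rfl⟩⟩
  obtain ⟨B0, h0, hmin⟩ := (cpt n).exists_isMinOn hne (cont k).continuousOn
  have hJ := uniq k n hk hn B0 h0 hmin
  subst hJ
  exact ⟨h0, fun B hB => ⟨hmin hB, fun h => uniq k n hk hn B hB fun C hC => h ▸ hmin hC⟩⟩

end Pool.Agent.Results.MP_33747a_co.LargeN
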